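import Mathlib

open Filter Topology

namespace Pool.Agent.Results.MP_d408b2_an.NoLimit

lemma aux (a : ℝ) (y : ℕ → ℝ) (h : ∀ n, y (n + 3) = max a (max (y (n + 2)) (y (n + 1))) - y n)
    (l : ℝ) (hl : Tendsto y atTop (𝓝 l)) : ∀ n, y n = l := by
  have h1 : Tendsto (fun n => y (n + 1)) atTop (𝓝 l) := hl.comp (tendsto_add_atTop_nat 1)
  have h2 : Tendsto (fun n => y (n + 2)) atTop (𝓝 l) := hl.comp (tendsto_add_atTop_nat 2)
  have h3 : Tendsto (fun n => y (n + 3)) atTop (𝓝 l) := hl.comp (tendsto_add_atTop_nat 3)
  have e : l = max a (max l l) - l := by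
    refine tendsto_nhds_unique h3 ?_
    simp only [h]
    exact (tendsto_const_nhds.max (h2.max h1)).sub hl
  rw [max_self] at e
  by_cases ha : a ≤ 0
  · have l0 : l = 0 := by
      rcases le_total a l with g | g
      · rw [max_eq_right g] at e; linarith
      · rw [max_eq_left g] at e; linarith
    subst l0
    let I : ℕ → ℝ := fun n => max (max a (max (y (n + 2)) (y (n + 1)))) (y n) + max 0 (-y n) +
      (max 0 (-y (n + 1)) + max 0 (-y (n + 2)))
    have hI : ∀ n, I (n + 1) = I n := by
      intro n
      simp only [I, show n + 1 + 2 = n + 3 by ring, show n + 1 + 1 = n + 2 by ring, h n]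
      simp only [max_def]
      split_ifs <;> linarith
    have hc : ∀ n, I n = I 0 := fun n => by
      induction n with
      | zero => rfl
      | succ n ih => rw [hI, ih]
    have ht : Tendsto I atTop (𝓝 (max (max a (max 0 0)) 0 + max 0 (-0) + (max 0 (-0) + max 0 (-0)))) :=
      (((tendsto_const_nhds.max (h2.max h1)).max hl).add (tendsto_const_nhds.max hl.neg)).add
        ((tendsto_const_nhds.max h1.neg).add (tendsto_const_nhds.max h2.neg))
    have h0 : I 0 = 0 := by
      have : Tendsto I atTop (𝓝 (I 0)) := by rw [funext hc]; exact tendsto_const_nhds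
      rw [tendsto_nhds_unique this ht]
      simp [ha]
    intro n
    have := (hc n).trans h0
    simp only [I, max_def] at this
    split_ifs at this <;> linarith
  · push Not at ha
    have la : l < a := by
      rcases le_total a l with g | g
      · rw [max_eq_right g] at e; linarith
      · rw [max_eq_left g] at e; linarith
    rw [max_eq_left la.le] at e
    obtain ⟨N, hN⟩ := eventually_atTop.1 (hl.eventually (gt_mem_nhds la))
    have hp : ∀ n, N ≤ n → y (n + 3) = a - y n := fun n hn => by
      rw [h, max_eq_left (max_le (hN _ (by omega)).le (hN _ (by omega)).le)]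
    have hN' : ∀ n, N ≤ n → y n = l := by
      intro n hn
      have : ∀ k, y (n + 6 * k) = y n := by
        intro k
        induction k with
        | zero => rfl
        | succ k ih =>
          rw [show n + 6 * (k + 1) = n + 6 * k + 3 + 3 by ring, hp _ (by omega), hp _ (by omega), ih]
          ring
      have ht : Tendsto (fun k => y (n + 6 * k)) atTop (𝓝 l) :=
        hl.comp (tendsto_atTop_mono (fun k => by simp; omega) tendsto_id)
      rw [funext this] at ht
      exact tendsto_nhds_unique tendsto_const_nhds ht
    have : ∀ k n, N ≤ n + k → y n = l := by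
      intro k
      induction k with
      | zero => exact hN'
      | succ k ih =>
        intro n hn
        have := h n
        rw [ih (n + 3) (by omega), ih (n + 2) (by omega), ih (n + 1) (by omega), max_self,
          max_eq_left la.le] at this
        linarith
    exact fun n => this N n (by omega)

theorem result (A : ℝ) (hA : 0 < A) (x : ℕ → ℝ) (hx : ∀ n, 0 < x n)
    (h : ∀ n, x (n + 3) = max A (max (x (n + 2)) (x (n + 1))) / x n)
    (hne : ¬ ∃ c, ∀ n, x n = c) : ¬ ∃ l : ℝ, Tendsto x atTop (𝓝 l) := by
  rintro ⟨l, hl⟩
  have hl0 : 0 < l := by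
    rcases (ge_of_tendsto' hl fun n => (hx n).le).lt_or_eq with g | g
    · exact g
    · subst g
      have h3 : Tendsto (fun n => x (n + 3) * x n) atTop (𝓝 (0 * 0)) :=
        (hl.comp (tendsto_add_atTop_nat 3)).mul hl
      have := ge_of_tendsto' h3 fun n => by
        rw [h, div_mul_cancel₀ _ (hx n).ne']
        exact le_max_left A _
      linarith
  have hm : ∀ a b : ℝ, 0 < a → 0 < b → Real.log (max a b) = max (Real.log a) (Real.log b) := by
    intro a b ha hb
    rcases le_total a b with g | g
    · rw [max_eq_right g, max_eq_right (Real.log_le_log ha g)]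
    · rw [max_eq_left g, max_eq_left (Real.log_le_log hb g)]
  have := aux (Real.log A) (fun n => Real.log (x n)) (fun n => by
    rw [h, Real.log_div (lt_max_of_lt_left hA).ne' (hx n).ne',
      hm _ _ hA (lt_max_of_lt_left (hx _)), hm _ _ (hx _) (hx _)]) _ (hl.log hl0.ne')
  exact hne ⟨l, fun n => Real.log_injOn_pos (hx n) hl0 (this n)⟩

end Pool.Agent.Results.MP_d408b2_an.NoLimit
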